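import Pool.Agent.H130Z.UPG.Main

set_option autoImplicit false

/-- A strong universal pattern generator exists: there are a finite state set `S` with at least
two states, a quiescent state `o`, a reversible one-dimensional cellular automaton `Φ` with radius
`r` and local rule `f`, and a finite configuration `x` such that every word `w` over `S` appears at
every position `i` in some `Φ^n(x)`. -/
theorem Pool.Agent.Results.MP_903cf7_lc.AStrongGen.result :
    ∃ (S : Type) (_ : Fintype S) (o : S), Nontrivial S ∧
      ∃ (r : ℕ) (f : (Fin (2 * r + 1) → S) → S) (Φ : (ℤ → S) → (ℤ → S)),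
        (∀ (y : ℤ → S) (i : ℤ), Φ y i = f (fun k => y (i - r + (k : ℕ)))) ∧
        f (fun _ => o) = o ∧ Function.Bijective Φ ∧
        ∃ x : ℤ → S, {i | x i ≠ o}.Finite ∧
          ∀ (w : List S) (i : ℤ), ∃ n : ℕ, ∀ j : Fin w.length,
            Φ^[n] x (i + (j : ℕ)) = w.get j :=
  Pool.Agent.H130Z.UPG.main
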